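import Pool.Agent.Run7.h638.WR.Iface

/-!
Piece `SMA` of the project WR (MP_5885b3_lc): simulation of a multi-stack machine by a machine with
one push or pop in every step.
-/

set_option autoImplicit false

namespace Pool.Agent.Run7.h638.WR.SMA99

open Pool.Agent.H662R2.SM

variable {K Γ Q : Type}

/-- the intermediate states -/
abbrev Mid (K Γ Q : Type) (B : ℕ) : Type := {x : K × List Γ × Q // x.2.1.length ≤ B}

/-- the states -/
abbrev Sts (K Γ Q : Type) (B : ℕ) : Type := Q ⊕ (Mid K Γ Q B ⊕ Bool)

theorem fin_mid [Finite K] [Finite Γ] [Finite Q] (B : ℕ) : Finite (Mid K Γ Q B) := by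
  have h1 : Finite {l : List Γ // l.length ≤ B} := (List.finite_length_le Γ B).to_subtype
  refine Finite.of_injective
    (fun x : Mid K Γ Q B => (x.1.1, (⟨x.1.2.1, x.2⟩ : {l : List Γ // l.length ≤ B}), x.1.2.2)) ?_
  rintro ⟨⟨k, l, q⟩, h⟩ ⟨⟨k', l', q'⟩, h'⟩ he
  simp only [Prod.mk.injEq, Subtype.mk.injEq] at he
  obtain ⟨rfl, rfl, rfl⟩ := he
  rfl

/-- the state in which the letters of the list are still to be pushed -/
def go (B : ℕ) (k : K) : List Γ → Q → Sts K Γ Q B
  | [], q' => .inl q'
  | a :: v, q' => .inr (.inl ⟨(k, (a :: v).take B, q'), by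
      show ((a :: v).take B).length ≤ B
      rw [List.length_take]; exact min_le_left _ _⟩)

open Classical in
/-- the program -/
noncomputable def prg (M : Mach K Γ Q) (acc : Q → Γ → Prop) (B : ℕ) :
    Sts K Γ Q B → Op K Γ (Sts K Γ Q B)
  | .inl q => .pop (M.κ q) (fun o => match M.δ q o with
      | some p => go B (M.κ q) p.2.reverse p.1
      | none => if acc q o then .inr (.inr true) else .inr (.inr false))
  | .inr (.inl ⟨(k, a :: v, q'), _⟩) => .push k a (go B k v q')
  | .inr (.inl ⟨(_, [], _), _⟩) => .halt false
  | .inr (.inr b) => .halt b

theorem reach_go [DecidableEq K] (M : Mach K Γ Q) (acc : Q → Γ → Prop) (B : ℕ) (k : K) (q' : Q) :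
    ∀ (v : List Γ), v.length ≤ B → ∀ S : K → List Γ,
      Reach (prg M acc B) (go B k v q', S)
        (.inl q', Function.update S k (v.reverse ++ S k)) := by
  intro v
  induction v with
  | nil =>
      intro _ S
      have : Function.update S k (([] : List Γ).reverse ++ S k) = S := by
        simp
      rw [this]
      exact Relation.ReflTransGen.refl
  | cons a v ih =>
      intro hv S
      obtain ⟨C, rfl⟩ : ∃ C, B = C + 1 := by
        cases B with
        | zero => simp at hv
        | succ C => exact ⟨C, rfl⟩
      have hv' : v.length ≤ C := by simpa using hv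
      have ht : v.take C = v := List.take_of_length_le hv'
      have h1 : prg M acc (C + 1) (go (C + 1) k (a :: v) q') = .push k a (go (C + 1) k v q') := by
        show Op.push k a (go (C + 1) k (v.take C) q') = _
        rw [ht]
      have h2 : stepM (prg M acc (C + 1)) (go (C + 1) k (a :: v) q', S)
          = some (go (C + 1) k v q', Function.update S k (a :: S k)) := by
        unfold stepM
        simp only [h1]
      refine Relation.ReflTransGen.head h2 ?_
      have h3 := ih (by omega) (Function.update S k (a :: S k))
      have h4 : Function.update (Function.update S k (a :: S k)) k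
          (v.reverse ++ (Function.update S k (a :: S k)) k)
          = Function.update S k ((a :: v).reverse ++ S k) := by
        simp
      rw [h4] at h3
      exact h3

theorem bound [Finite Γ] [Finite Q] (M : Mach K Γ Q) :
    ∃ B : ℕ, ∀ q o p, M.δ q o = some p → p.2.length ≤ B := by
  obtain ⟨B, hB⟩ := (Set.finite_range (fun x : Q × Γ => match M.δ x.1 x.2 with
    | some p => p.2.length
    | none => 0)).bddAbove
  refine ⟨B, fun q o p h => ?_⟩
  have := hB ⟨(q, o), rfl⟩
  simpa [h] using this

theorem step_pop [DecidableEq K] (M : Mach K Γ Q) (acc : Q → Γ → Prop) (B : ℕ) (q : Q)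
    (S : K → List Γ) (o : Γ) (z : List Γ) (h : S (M.κ q) = o :: z) (s : Sts K Γ Q B)
    (hs : (match M.δ q o with
      | some p => go B (M.κ q) p.2.reverse p.1
      | none => open Classical in
          if acc q o then Sum.inr (Sum.inr true) else Sum.inr (Sum.inr false)) = s) :
    stepM (prg M acc B) (.inl q, S) = some (s, Function.update S (M.κ q) z) := by
  subst hs
  simp only [stepM, prg]
  rw [h]

end SMA99

open SMA99 in
theorem t_SMA : SMA := by
  intro K Γ Q _ _ _ _ M acc hacc
  obtain ⟨B, hB⟩ := bound M
  have : Finite (Mid K Γ Q B) := fin_mid B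
  refine ⟨Sts K Γ Q B, inferInstance, prg M acc B, Sum.inl, ?_, ?_, ?_⟩
  · intro q S q' S' h
    unfold Pool.Agent.H662R2.SM.Mach.step at h
    cases hS : S (M.κ q) with
    | nil => simp [hS] at h
    | cons o z =>
        simp only [hS] at h
        cases hd : M.δ q o with
        | none => simp [hd] at h
        | some p =>
            rw [hd] at h
            simp only [Option.map_some, Option.some.injEq, Prod.mk.injEq] at h
            obtain ⟨rfl, h2⟩ := h
            have hst := step_pop M acc B q S o z hS (go B (M.κ q) p.2.reverse p.1) (by rw [hd])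
            refine Relation.ReflTransGen.head hst ?_
            have h3 := reach_go M acc B (M.κ q) p.1 p.2.reverse
              (by rw [List.length_reverse]; exact hB q o p hd) (Function.update S (M.κ q) z)
            have h4 : Function.update (Function.update S (M.κ q) z) (M.κ q)
                (p.2.reverse.reverse ++ (Function.update S (M.κ q) z) (M.κ q)) = S' := by
              rw [← h2]; simp
            rw [h4] at h3
            exact h3
  · intro q S o z hS ha
    have hd := hacc q o ha
    have hst := step_pop M acc B q S o z hS (.inr (.inr true)) (by rw [hd]; simp [ha])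
    exact ⟨_, Relation.ReflTransGen.single hst, rfl⟩
  · intro q S h hn
    unfold Pool.Agent.H662R2.SM.Mach.step at h
    cases hS : S (M.κ q) with
    | nil =>
        refine ⟨(.inl q, S), Relation.ReflTransGen.refl, ?_, ?_⟩
        · simp only [stepM, prg]
          rw [hS]
        · simp [prg]
    | cons o z =>
        simp only [hS] at h
        have hd : M.δ q o = none := by
          cases hd : M.δ q o with
          | none => rfl
          | some p => simp [hd] at h
        have hst := step_pop M acc B q S o z hS (.inr (.inr false))
          (by rw [hd]; simp [hn o z hS])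
        exact ⟨_, Relation.ReflTransGen.single hst, rfl, by simp [prg]⟩

end Pool.Agent.Run7.h638.WR
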